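import Mathlib

open scoped BigOperators

namespace Pool.Agent.Results.MP_36fd63_nt.BasisGap

/-- The `k`-fold sumset `kX` of a set of integers (repetitions allowed). -/
def kfold (k : ℕ) (X : Set ℤ) : Set ℤ :=
  {s | ∃ f : Fin k → ℤ, (∀ i, f i ∈ X) ∧ ∑ i, f i = s}

/-- Every set `A` of nonnegative elements of `kB` has a `k`-fold basis `C` consisting of at most
`N` nonnegative integers. -/
def HasNonnegBasis (k : ℕ) (B : Finset ℤ) (N : ℝ) : Prop :=
  ∀ A : Set ℤ, A ⊆ {a | 0 ≤ a} ∩ kfold k (B : Set ℤ) →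
    ∃ C : Finset ℤ, (∀ c ∈ C, 0 ≤ c) ∧ (C.card : ℝ) ≤ N ∧ A ⊆ kfold k (C : Set ℤ)

lemma HasNonnegBasis.mono {k : ℕ} {B : Finset ℤ} {N N' : ℝ} (h : HasNonnegBasis k B N)
    (hN : N ≤ N') : HasNonnegBasis k B N' := by
  intro A hA
  obtain ⟨C, h1, h2, h3⟩ := h A hA
  exact ⟨C, h1, h2.trans hN, h3⟩

/-! ### Dyadic rounding -/

/-- The dyadic set `b mod 2^l + u 2^l`. -/
def dyC (B : Finset ℤ) (M K : ℕ) : Finset ℤ :=
  (B ×ˢ (Finset.range (M + 1) ×ˢ Finset.range K)).image
    (fun x => x.1 % 2 ^ x.2.1 + (x.2.2 : ℤ) * 2 ^ x.2.1)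

lemma dyC_card (B : Finset ℤ) (M K : ℕ) : (dyC B M K).card ≤ B.card * ((M + 1) * K) := by
  refine (Finset.card_image_le).trans ?_
  simp [Finset.card_product]

lemma dyC_nonneg (B : Finset ℤ) (M K : ℕ) : ∀ c ∈ dyC B M K, 0 ≤ c := by
  intro c hc
  rw [dyC, Finset.mem_image] at hc
  obtain ⟨x, -, rfl⟩ := hc
  have h1 : 0 ≤ x.1 % 2 ^ x.2.1 := Int.emod_nonneg _ (by positivity)
  positivity

lemma exists_level (k M : ℕ) (f : Fin k → ℤ) (h0 : 0 ≤ ∑ i, f i) (hM : ∀ i, f i < 2 ^ M) :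
    ∃ l ≤ M, 0 ≤ ∑ i, f i / 2 ^ l ∧ (∑ i, f i / 2 ^ l = 0 ∨ ∑ i, f i / 2 ^ l ≤ (k : ℤ) - 2) := by
  classical
  have hP0 : 0 ≤ ∑ i, f i / 2 ^ 0 := by simpa using h0
  have hspec : 0 ≤ ∑ i, f i / 2 ^ (Nat.findGreatest (fun l => 0 ≤ ∑ i, f i / 2 ^ l) M) :=
    Nat.findGreatest_spec (P := fun l => 0 ≤ ∑ i, f i / 2 ^ l) (Nat.zero_le M) hP0
  have hle : Nat.findGreatest (fun l => 0 ≤ ∑ i, f i / 2 ^ l) M ≤ M := Nat.findGreatest_le M
  have hgr : ∀ j, Nat.findGreatest (fun l => 0 ≤ ∑ i, f i / 2 ^ l) M < j → j ≤ M →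
      ¬ (0 ≤ ∑ i, f i / 2 ^ j) := fun j h1 h2 => Nat.findGreatest_is_greatest h1 h2
  set l := Nat.findGreatest (fun l => 0 ≤ ∑ i, f i / 2 ^ l) M with hl
  refine ⟨l, hle, hspec, ?_⟩
  rcases Nat.lt_or_ge l M with hlt | hge
  · right
    have h1 := hgr (l + 1) (Nat.lt_succ_self l) hlt
    have h2 : ∑ i, f i / 2 ^ l ≤ ∑ i : Fin k, (2 * (f i / 2 ^ (l + 1)) + 1) := by
      refine Finset.sum_le_sum (fun i _ => ?_)
      have e : f i / 2 ^ (l + 1) = (f i / 2 ^ l) / 2 := by
        rw [pow_succ, Int.ediv_ediv_of_nonneg (by positivity)]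
      rw [e]
      omega
    rw [Finset.sum_add_distrib, ← Finset.mul_sum] at h2
    simp only [Finset.sum_const, Finset.card_univ, Fintype.card_fin, nsmul_eq_mul, mul_one] at h2
    omega
  · left
    have hlM : l = M := le_antisymm hle hge
    have h1 : ∑ i, f i / 2 ^ l ≤ ∑ _i : Fin k, (0 : ℤ) := by
      refine Finset.sum_le_sum (fun i _ => ?_)
      rw [hlM]
      have : f i / 2 ^ M < 1 := Int.ediv_lt_of_lt_mul (by positivity) (by simpa using hM i)
      omega
    rw [Finset.sum_const_zero] at h1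
    exact le_antisymm h1 hspec

lemma dyadic_basis (k M : ℕ) (hk : 1 ≤ k) (B : Finset ℤ) (hB : ∀ b ∈ B, b < 2 ^ M) :
    HasNonnegBasis k B ((B.card : ℝ) * (((M : ℝ) + 1) * k)) := by
  intro A hA
  refine ⟨dyC B M k, dyC_nonneg B M k, ?_, ?_⟩
  · have := dyC_card B M k
    exact_mod_cast this
  · intro a ha
    obtain ⟨ha0, f, hf, hfa⟩ := hA ha
    have ha0' : (0 : ℤ) ≤ a := ha0
    obtain ⟨l, hlM, hS0, hS⟩ := exists_level k M f (by rw [hfa]; exact ha0')
      (fun i => hB _ (by simpa using hf i))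
    set S := ∑ i, f i / 2 ^ l with hSdef
    have hSk : S.toNat < k := by
      rcases hS with h | h
      · rw [h]; simp only [Int.toNat_zero]; omega
      · omega
    let i0 : Fin k := ⟨0, hk⟩
    refine ⟨fun i => f i % 2 ^ l + ((if i = i0 then S.toNat else 0 : ℕ) : ℤ) * 2 ^ l, ?_, ?_⟩
    · intro i
      rw [Finset.mem_coe, dyC, Finset.mem_image]
      refine ⟨(f i, (l, if i = i0 then S.toNat else 0)), ?_, rfl⟩
      rw [Finset.mem_product, Finset.mem_product, Finset.mem_range, Finset.mem_range]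
      refine ⟨by simpa using hf i, by simpa using Nat.lt_succ_of_le hlM, ?_⟩
      show (if i = i0 then S.toNat else 0) < k
      split_ifs
      · exact hSk
      · exact hk
    · rw [Finset.sum_add_distrib]
      have h1 : ∑ i, ((if i = i0 then S.toNat else 0 : ℕ) : ℤ) * 2 ^ l = S * 2 ^ l := by
        rw [Finset.sum_eq_single i0]
        · rw [if_pos rfl, Int.toNat_of_nonneg hS0]
        · intro b _ hb
          rw [if_neg hb]; simp
        · intro h; exact absurd (Finset.mem_univ _) h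
      rw [h1, ← hfa, hSdef, Finset.sum_mul, ← Finset.sum_add_distrib]
      refine Finset.sum_congr rfl (fun i _ => ?_)
      rw [Int.emod_def]; ring

/-! ### Two-fold bases -/

lemma tree (m : ℕ) : ∀ P N : Finset ℤ, P.card + N.card < 2 ^ m →
    ∃ C : Finset ℤ, (∀ c ∈ C, 0 ≤ c) ∧ C.card ≤ m * (P.card + N.card) ∧
      ∀ p ∈ P, ∀ q ∈ N, q ≤ p → ∃ c ∈ C, ∃ d ∈ C, c + d = p - q := by
  induction m with
  | zero =>
    intro P N h
    have hP : P = ∅ := by
      rw [← Finset.card_eq_zero]; rw [pow_zero] at h; omega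
    refine ⟨∅, by simp, by simp, ?_⟩
    intro p hp
    rw [hP] at hp
    exact absurd hp (Finset.notMem_empty p)
  | succ m ih =>
    intro P N h
    by_cases hs : P.card + N.card < 2 ^ m
    · obtain ⟨C, h1, h2, h3⟩ := ih P N hs
      exact ⟨C, h1, h2.trans (Nat.mul_le_mul_right _ (Nat.le_succ m)), h3⟩
    · have hs' : 2 ^ m ≤ P.card + N.card := Nat.le_of_not_lt hs
      have hpos : 0 < 2 ^ m := by positivity
      have hne : (P ∪ N).Nonempty := by
        by_contra hcon
        rw [Finset.not_nonempty_iff_eq_empty, Finset.union_eq_empty] at hcon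
        rw [hcon.1, hcon.2] at hs'
        simp at hs'
      have hex : ∃ t : ℤ, 2 ^ m ≤ (P.filter (· ≤ t)).card + (N.filter (· ≤ t)).card ∧
          ∀ z : ℤ, 2 ^ m ≤ (P.filter (· ≤ z)).card + (N.filter (· ≤ z)).card → t ≤ z := by
        refine Int.exists_least_of_bdd
          (P := fun t : ℤ => 2 ^ m ≤ (P.filter (· ≤ t)).card + (N.filter (· ≤ t)).card) ?_ ?_
        · refine ⟨(P ∪ N).min' hne, ?_⟩
          intro z hz
          by_contra hlt
          have hlt' : z < (P ∪ N).min' hne := lt_of_not_ge hlt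
          have e1 : P.filter (· ≤ z) = ∅ := by
            rw [Finset.filter_eq_empty_iff]
            intro x hx hxz
            have := (P ∪ N).min'_le x (Finset.mem_union_left _ hx)
            omega
          have e2 : N.filter (· ≤ z) = ∅ := by
            rw [Finset.filter_eq_empty_iff]
            intro x hx hxz
            have := (P ∪ N).min'_le x (Finset.mem_union_right _ hx)
            omega
          simp only [e1, e2, Finset.card_empty] at hz
          omega
        · refine ⟨(P ∪ N).max' hne, ?_⟩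
          have e1 : P.filter (· ≤ (P ∪ N).max' hne) = P := by
            rw [Finset.filter_eq_self]
            intro x hx
            exact (P ∪ N).le_max' x (Finset.mem_union_left _ hx)
          have e2 : N.filter (· ≤ (P ∪ N).max' hne) = N := by
            rw [Finset.filter_eq_self]
            intro x hx
            exact (P ∪ N).le_max' x (Finset.mem_union_right _ hx)
          simp only [e1, e2]
          exact hs'
      obtain ⟨t, ht1, ht2⟩ := hex
      have hlow : (P.filter (· < t)).card + (N.filter (· < t)).card < 2 ^ m := by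
        by_contra hcon
        have hcon' := Nat.le_of_not_lt hcon
        have e1 : P.filter (· < t) = P.filter (· ≤ t - 1) := by
          ext x; simp only [Finset.mem_filter]; constructor <;> (rintro ⟨a, b⟩; exact ⟨a, by omega⟩)
        have e2 : N.filter (· < t) = N.filter (· ≤ t - 1) := by
          ext x; simp only [Finset.mem_filter]; constructor <;> (rintro ⟨a, b⟩; exact ⟨a, by omega⟩)
        rw [e1, e2] at hcon'
        have := ht2 (t - 1) hcon'
        omega
      have splitP : (P.filter (· ≤ t)).card + (P.filter (t < ·)).card = P.card := by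
        rw [← Finset.card_filter_add_card_filter_not (s := P) (fun x => x ≤ t)]
        congr 2
        ext x; simp
      have splitN : (N.filter (· ≤ t)).card + (N.filter (t < ·)).card = N.card := by
        rw [← Finset.card_filter_add_card_filter_not (s := N) (fun x => x ≤ t)]
        congr 2
        ext x; simp
      have hlP : (P.filter (· < t)).card ≤ (P.filter (· ≤ t)).card :=
        Finset.card_le_card (fun x hx => by
          rw [Finset.mem_filter] at hx ⊢; exact ⟨hx.1, hx.2.le⟩)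
      have hlN : (N.filter (· < t)).card ≤ (N.filter (· ≤ t)).card :=
        Finset.card_le_card (fun x hx => by
          rw [Finset.mem_filter] at hx ⊢; exact ⟨hx.1, hx.2.le⟩)
      have hup : (P.filter (t < ·)).card + (N.filter (t < ·)).card < 2 ^ m := by
        rw [pow_succ] at h
        omega
      obtain ⟨C1, a1, a2, a3⟩ := ih _ _ hlow
      obtain ⟨C2, b1, b2, b3⟩ := ih _ _ hup
      refine ⟨(C1 ∪ C2) ∪ ((P.filter (t ≤ ·)).image (fun x => x - t) ∪
        (N.filter (· ≤ t)).image (fun x => t - x)), ?_, ?_, ?_⟩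
      · intro c hc
        rw [Finset.mem_union, Finset.mem_union, Finset.mem_union, Finset.mem_image,
          Finset.mem_image] at hc
        rcases hc with (h1 | h1) | (⟨x, hx, rfl⟩ | ⟨x, hx, rfl⟩)
        · exact a1 c h1
        · exact b1 c h1
        · rw [Finset.mem_filter] at hx; omega
        · rw [Finset.mem_filter] at hx; omega
      · have c1 := Finset.card_union_le (C1 ∪ C2) ((P.filter (t ≤ ·)).image (fun x => x - t) ∪
          (N.filter (· ≤ t)).image (fun x => t - x))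
        have c2 := Finset.card_union_le C1 C2
        have c3 := Finset.card_union_le ((P.filter (t ≤ ·)).image (fun x => x - t))
          ((N.filter (· ≤ t)).image (fun x => t - x))
        have c4 : ((P.filter (t ≤ ·)).image (fun x => x - t)).card ≤ P.card :=
          Finset.card_image_le.trans (Finset.card_filter_le _ _)
        have c5 : ((N.filter (· ≤ t)).image (fun x => t - x)).card ≤ N.card :=
          Finset.card_image_le.trans (Finset.card_filter_le _ _)
        have c6 : m * ((P.filter (· < t)).card + (N.filter (· < t)).card) +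
            m * ((P.filter (t < ·)).card + (N.filter (t < ·)).card) ≤ m * (P.card + N.card) := by
          rw [← mul_add]
          exact Nat.mul_le_mul_left _ (by omega)
        rw [Nat.succ_mul]
        omega
      · intro p hp q hq hqp
        rcases lt_or_ge p t with h1 | h1
        · obtain ⟨c, hc, d, hd, e⟩ := a3 p (Finset.mem_filter.mpr ⟨hp, h1⟩) q
            (Finset.mem_filter.mpr ⟨hq, lt_of_le_of_lt hqp h1⟩) hqp
          exact ⟨c, Finset.mem_union_left _ (Finset.mem_union_left _ hc), d,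
            Finset.mem_union_left _ (Finset.mem_union_left _ hd), e⟩
        · rcases lt_or_ge t q with h2 | h2
          · obtain ⟨c, hc, d, hd, e⟩ := b3 p (Finset.mem_filter.mpr ⟨hp, lt_of_lt_of_le h2 hqp⟩) q
              (Finset.mem_filter.mpr ⟨hq, h2⟩) hqp
            exact ⟨c, Finset.mem_union_left _ (Finset.mem_union_right _ hc), d,
              Finset.mem_union_left _ (Finset.mem_union_right _ hd), e⟩
          · refine ⟨p - t, Finset.mem_union_right _ (Finset.mem_union_left _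
              (Finset.mem_image.mpr ⟨p, Finset.mem_filter.mpr ⟨hp, h1⟩, rfl⟩)), t - q,
              Finset.mem_union_right _ (Finset.mem_union_right _
              (Finset.mem_image.mpr ⟨q, Finset.mem_filter.mpr ⟨hq, h2⟩, rfl⟩)), by ring⟩

lemma two_basis (B : Finset ℤ) :
    HasNonnegBasis 2 B (((Nat.log 2 B.card : ℝ) + 2) * (2 * B.card)) := by
  intro A hA
  set n := B.card with hn
  have hN : (B.image (fun x => -x)).card ≤ n := Finset.card_image_le
  have hlt : B.card + (B.image (fun x => -x)).card < 2 ^ (Nat.log 2 n + 2) := by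
    have h1 : n < 2 ^ (Nat.log 2 n + 1) := Nat.lt_pow_succ_log_self (by norm_num) n
    have h2 : (2 : ℕ) ^ (Nat.log 2 n + 2) = 2 ^ (Nat.log 2 n + 1) * 2 := pow_succ _ _
    rw [h2]
    omega
  obtain ⟨C, h1, h2, h3⟩ := tree (Nat.log 2 n + 2) B (B.image (fun x => -x)) hlt
  refine ⟨C, h1, ?_, ?_⟩
  · have h4 : C.card ≤ (Nat.log 2 n + 2) * (2 * n) :=
      h2.trans (Nat.mul_le_mul_left _ (by omega))
    exact_mod_cast h4
  · intro a ha
    obtain ⟨ha0, f, hf, hfa⟩ := hA ha
    have ha0' : (0 : ℤ) ≤ a := ha0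
    rw [Fin.sum_univ_two] at hfa
    obtain ⟨c, hc, d, hd, e⟩ := h3 (f 0) (by simpa using hf 0) (-(f 1))
      (Finset.mem_image.mpr ⟨f 1, by simpa using hf 1, rfl⟩) (by omega)
    refine ⟨![c, d], ?_, ?_⟩
    · intro i
      fin_cases i
      · simpa using hc
      · simpa using hd
    · rw [Fin.sum_univ_two]
      simp only [Matrix.cons_val_zero, Matrix.cons_val_one]
      omega

/-! ### Asymptotic forms -/

lemma asymp_two (ε : ℝ) (hε : 0 < ε) : ∃ n0 : ℕ, ∀ n : ℕ, n0 < n →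
    ((Nat.log 2 n : ℝ) + 2) * (2 * n) ≤ (n : ℝ) ^ (1 + ε) := by
  have h1 := (isLittleO_log_rpow_atTop hε).bound (show (0 : ℝ) < 1 / 8 by norm_num)
  have h2 := (tendsto_rpow_atTop hε).eventually_ge_atTop (8 : ℝ)
  have h3 := Filter.eventually_ge_atTop (1 : ℝ)
  have h4 := (tendsto_natCast_atTop_atTop (R := ℝ)).eventually (h1.and (h2.and h3))
  rw [Filter.eventually_atTop] at h4
  obtain ⟨n0, hn0⟩ := h4
  refine ⟨n0, fun n hn => ?_⟩
  obtain ⟨a1, a2, a3⟩ := hn0 n hn.le
  have hnpos : (0 : ℝ) < n := lt_of_lt_of_le one_pos a3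
  have hlog0 : 0 ≤ Real.log n := Real.log_nonneg a3
  have hp0 : 0 ≤ (n : ℝ) ^ ε := Real.rpow_nonneg hnpos.le _
  rw [Real.norm_of_nonneg hlog0, Real.norm_of_nonneg hp0] at a1
  have h5 : (Nat.log 2 n : ℝ) ≤ 2 * Real.log n := by
    have h6 : (Nat.log 2 n : ℝ) ≤ Real.logb 2 n := by
      have := Real.natLog_le_logb n 2
      simpa using this
    have h7 : Real.logb 2 n ≤ 2 * Real.log n := by
      rw [Real.logb, div_le_iff₀ (Real.log_pos (by norm_num))]
      have h8 : (1 / 2 : ℝ) ≤ Real.log 2 := by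
        have := Real.log_two_gt_d9
        linarith
      nlinarith
    exact h6.trans h7
  rw [Real.rpow_add hnpos, Real.rpow_one]
  have h9 : ((Nat.log 2 n : ℝ) + 2) * 2 ≤ (n : ℝ) ^ ε := by linarith
  calc ((Nat.log 2 n : ℝ) + 2) * (2 * n) = (((Nat.log 2 n : ℝ) + 2) * 2) * n := by ring
    _ ≤ (n : ℝ) ^ ε * n := mul_le_mul_of_nonneg_right h9 hnpos.le
    _ = n * (n : ℝ) ^ ε := by ring

lemma asymp_gen (k : ℕ) (δ ε : ℝ) (hδ : 0 < δ) (hε : δ < ε) : ∃ n0 : ℕ, ∀ n : ℕ, n0 < n →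
    (n : ℝ) * (((n : ℝ) ^ δ + 2) * k) ≤ (n : ℝ) ^ (1 + ε) := by
  have h2 := (tendsto_rpow_atTop (sub_pos.mpr hε)).eventually_ge_atTop (3 * k : ℝ)
  have h3 := Filter.eventually_ge_atTop (1 : ℝ)
  have h4 := (tendsto_natCast_atTop_atTop (R := ℝ)).eventually (h2.and h3)
  rw [Filter.eventually_atTop] at h4
  obtain ⟨n0, hn0⟩ := h4
  refine ⟨n0, fun n hn => ?_⟩
  obtain ⟨a1, a3⟩ := hn0 n hn.le
  have hnpos : (0 : ℝ) < n := lt_of_lt_of_le one_pos a3
  have hd : 1 ≤ (n : ℝ) ^ δ := Real.one_le_rpow a3 hδ.le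
  have hk : (0 : ℝ) ≤ k := Nat.cast_nonneg k
  rw [Real.rpow_add hnpos, Real.rpow_one]
  refine mul_le_mul_of_nonneg_left ?_ hnpos.le
  have e : (n : ℝ) ^ ε = (n : ℝ) ^ δ * (n : ℝ) ^ (ε - δ) := by
    rw [← Real.rpow_add hnpos]; congr 1; ring
  rw [e]
  calc ((n : ℝ) ^ δ + 2) * k ≤ (3 * (n : ℝ) ^ δ) * k :=
        mul_le_mul_of_nonneg_right (by linarith) hk
    _ = (n : ℝ) ^ δ * (3 * k) := by ring
    _ ≤ (n : ℝ) ^ δ * (n : ℝ) ^ (ε - δ) :=
        mul_le_mul_of_nonneg_left a1 (by linarith)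

lemma gen_basis (k : ℕ) (hk : 1 ≤ k) (B : Finset ℤ) (x : ℝ) (hx : 0 ≤ x)
    (hB : ∀ b ∈ B, (b : ℝ) ≤ 2 ^ x) :
    HasNonnegBasis k B ((B.card : ℝ) * ((x + 2) * k)) := by
  have h1 : ∀ b ∈ B, b < 2 ^ (⌊x⌋₊ + 1) := by
    intro b hb
    have h2 : (b : ℝ) < (2 : ℝ) ^ ((⌊x⌋₊ + 1 : ℕ) : ℝ) := by
      refine lt_of_le_of_lt (hB b hb) ?_
      refine Real.rpow_lt_rpow_of_exponent_lt (by norm_num) ?_
      push_cast
      exact Nat.lt_floor_add_one x
    rw [Real.rpow_natCast] at h2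
    exact_mod_cast h2
  refine (dyadic_basis k (⌊x⌋₊ + 1) hk B h1).mono ?_
  refine mul_le_mul_of_nonneg_left ?_ (Nat.cast_nonneg _)
  refine mul_le_mul_of_nonneg_right ?_ (Nat.cast_nonneg _)
  push_cast
  have := Nat.floor_le hx
  linarith

/-- (1) Q1 holds for `k = 2` (and `k = 1`), with the explicit bound `2n(log2 n + 2)` for `k = 2`;
(2) Q1 holds for every `k` for all bases with largest element at most `2^(n^δ)`, `δ < ε`;
more precisely, `|C| ≤ k n (x + 2)` whenever `max B ≤ 2^x`. -/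
theorem result :
    (∀ B : Finset ℤ, HasNonnegBasis 2 B (((Nat.log 2 B.card : ℝ) + 2) * (2 * B.card))) ∧
    (∀ ε : ℝ, 0 < ε → ∃ n0 : ℕ, ∀ B : Finset ℤ, n0 < B.card →
      HasNonnegBasis 2 B ((B.card : ℝ) ^ (1 + ε))) ∧
    (∀ k : ℕ, 1 ≤ k → ∀ (B : Finset ℤ) (x : ℝ), 0 ≤ x → (∀ b ∈ B, (b : ℝ) ≤ 2 ^ x) →
      HasNonnegBasis k B ((B.card : ℝ) * ((x + 2) * k))) ∧
    (∀ k : ℕ, 1 ≤ k → ∀ δ ε : ℝ, 0 < δ → δ < ε → ∃ n0 : ℕ, ∀ B : Finset ℤ, n0 < B.card →
      (∀ b ∈ B, (b : ℝ) ≤ 2 ^ ((B.card : ℝ) ^ δ)) →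
      HasNonnegBasis k B ((B.card : ℝ) ^ (1 + ε))) := by
  refine ⟨two_basis, ?_, fun k hk B x hx hB => gen_basis k hk B x hx hB, ?_⟩
  · intro ε hε
    obtain ⟨n0, h⟩ := asymp_two ε hε
    exact ⟨n0, fun B hB => (two_basis B).mono (h _ hB)⟩
  · intro k hk δ ε hδ hε
    obtain ⟨n0, h⟩ := asymp_gen k δ ε hδ hε
    refine ⟨n0, fun B hB hb => (gen_basis k hk B _ (Real.rpow_nonneg (Nat.cast_nonneg _) _)
      hb).mono (h _ hB)⟩

end Pool.Agent.Results.MP_36fd63_nt.BasisGap
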